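import Pool.Agent.Q193.UHF.Crit

/-!
# Cancelling tensor factors in unital embeddings of UHF-type algebras
-/

set_option autoImplicit false

universe u

open Cardinal Pool.Agent.Helper741.UHF Pool.Agent.Q193.UHF

namespace Pool.Agent.Results.MP_c44838_an.Cancellation

theorem criterion {J K : Type u} [Infinite K] {n : J → ℕ} (hn : ∀ j, 0 < n j) {N : ℕ}
    (hN : 0 < N) {E C : Type u} [CStarAlgebra E] [CStarAlgebra C] (hE : IsMatrixTensor n E)
    (hC : IsMatrixTensor (fun _ : K => N) C) :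
    EmbedsUnitally C E ↔ ∀ p : ℕ, p.Prime → p ∣ N → #K ≤ #{j | p ∣ n j} :=
  ⟨fun h p hp hpN => card_le_of_embeds hn hN hE hC h p hp hpN,
    fun h => embeds_of_card hn hN hE hC h⟩

/-- For all cardinals `κ = #K < κ' = #K'` with `κ'` infinite: if `⨂_{κ'} M_N` embeds unitally into
`A ⊗ ⨂_κ M_N`, where `A = ⨂_{i ∈ I} M_{m_i}`, then `⨂_{κ'} M_N` embeds unitally into `A`.
Moreover, for infinite `K`, `⨂_K M_N` embeds unitally into `⨂_{j ∈ J} M_{n_j}` if and only if
for every prime divisor `p` of `N` at least `#K` of the numbers `n_j` are divisible by `p`. -/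
theorem result :
    (∀ (I K K' : Type u) (m : I → ℕ) (N : ℕ), (∀ i, 0 < m i) → 0 < N → #K < #K' → Infinite K' →
      ∀ (A B B' E : Type u) [CStarAlgebra A] [CStarAlgebra B] [CStarAlgebra B'] [CStarAlgebra E],
        IsMatrixTensor m A → IsMatrixTensor (fun _ : K => N) B →
        IsMatrixTensor (fun _ : K' => N) B' → IsCStarTensor A B E →
        EmbedsUnitally B' E → EmbedsUnitally B' A) ∧
    (∀ (J K : Type u) (n : J → ℕ) (N : ℕ), (∀ j, 0 < n j) → 0 < N → Infinite K →
      ∀ (E C : Type u) [CStarAlgebra E] [CStarAlgebra C],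
        IsMatrixTensor n E → IsMatrixTensor (fun _ : K => N) C →
        (EmbedsUnitally C E ↔ ∀ p : ℕ, p.Prime → p ∣ N → #K ≤ #{j | p ∣ n j})) := by
  refine ⟨?_, fun J K n N hn hN hK E C _ _ hE hC => criterion hn hN hE hC⟩
  intro I K K' m N hm hN hlt hK' A B B' E _ _ _ _ hA hB hB' hE hemb
  have hE' : IsMatrixTensor (Sum.elim m (fun _ : K => N)) E := isMatrixTensor_sum hA hB hE
  have hpos : ∀ j, 0 < (Sum.elim m (fun _ : K => N)) j := by
    rintro (i | k)
    · exact hm i
    · exact hN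
  rw [criterion hpos hN hE' hB'] at hemb
  rw [criterion hm hN hA hB']
  intro p hp hpN
  have h1 := hemb p hp hpN
  have h2 : #{j | p ∣ Sum.elim m (fun _ : K => N) j} ≤ #{i | p ∣ m i} + #K := by
    have h3 : {j | p ∣ Sum.elim m (fun _ : K => N) j} ⊆
        (Sum.inl '' {i | p ∣ m i}) ∪ Set.range (Sum.inr : K → I ⊕ K) := by
      rintro (i | k) hj
      · exact Or.inl ⟨i, hj, rfl⟩
      · exact Or.inr ⟨k, rfl⟩
    refine (mk_le_mk_of_subset h3).trans ((mk_union_le _ _).trans ?_)
    exact add_le_add mk_image_le mk_range_le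
  exact card_infinite hlt (aleph0_le_mk K') (h1.trans h2)

end Pool.Agent.Results.MP_c44838_an.Cancellation
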